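import Mathlib

namespace Pool.Agent.Results.MP_d10f6f_co.WeakRainbowSaturationLinear

/-- In the graph on `Fin n` with edge set `E` and edge colours `φ`, the vertices of `S` are
pairwise adjacent and the edges inside `S` have pairwise distinct colours. -/
def RainbowClique {n : ℕ} (E : Set (Sym2 (Fin n))) (φ : Sym2 (Fin n) → ℕ)
    (S : Finset (Fin n)) : Prop :=
  (∀ a ∈ S, ∀ b ∈ S, a ≠ b → s(a, b) ∈ E) ∧
  (∀ a ∈ S, ∀ b ∈ S, ∀ c ∈ S, ∀ d ∈ S, a ≠ b → c ≠ d →
    φ s(a, b) = φ s(c, d) → s(a, b) = s(c, d))

/-- `(G, χ)` is weakly `K_r`-rainbow saturated: there is an ordering `e` of the missing edges such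
that for every sequence `c` of pairwise distinct colours each added edge `e i` lies in a rainbow
`K_r` of `G + e 0 + ⋯ + e i`, where `e j` has colour `c j` (this is `Function.extend e c χ`). -/
def WeaklySaturated {n : ℕ} (r : ℕ) (G : SimpleGraph (Fin n)) (χ : Sym2 (Fin n) → ℕ) : Prop :=
  ∃ (m : ℕ) (e : Fin m → Sym2 (Fin n)), Function.Injective e ∧
    Set.range e = (⊤ : SimpleGraph (Fin n)).edgeSet \ G.edgeSet ∧
    ∀ c : Fin m → ℕ, Function.Injective c → ∀ i : Fin m,
      ∃ S : Finset (Fin n), S.card = r ∧ (∃ a ∈ S, ∃ b ∈ S, a ≠ b ∧ e i = s(a, b)) ∧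
        RainbowClique (G.edgeSet ∪ {f | ∃ j ≤ i, e j = f}) (Function.extend e c χ) S

/-- The weak rainbow saturation number `rwsat(n, K_r)`. -/
noncomputable def rwsat (n r : ℕ) : ℕ :=
  sInf {k | ∃ (G : SimpleGraph (Fin n)) (χ : Sym2 (Fin n) → ℕ),
    WeaklySaturated r G χ ∧ G.edgeSet.ncard = k}

/-! ### A consequence of Turán's theorem -/

theorem exists_indep (k : ℕ) (hk : 1 ≤ k) (F : Finset (Sym2 (Fin (8 * k))))
    (hF : F.card ≤ 16 * k + 1) :
    ∃ I : Finset (Fin (8 * k)), I.card = k ∧ ∀ a ∈ I, ∀ b ∈ I, a ≠ b → s(a, b) ∉ F := by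
  classical
  let H : SimpleGraph (Fin (8 * k)) := SimpleGraph.fromEdgeSet {f | f ∉ F}
  have hH : ∀ a b, H.Adj a b ↔ s(a, b) ∉ F ∧ a ≠ b := by
    intro a b; simp [H]
  have hnot : ¬ H.CliqueFree (k + 1) := by
    intro hcf
    have h0 : H.edgeFinset.card ≤ (Fintype.card (Fin (8 * k)) ^ 2
        - (Fintype.card (Fin (8 * k)) % k) ^ 2) * (k - 1) / (2 * k)
        + (Fintype.card (Fin (8 * k)) % k).choose 2 := by
      have h := hcf.card_edgeFinset_le
      dsimp only at h
      convert h using 2
      ext f; simp only [SimpleGraph.mem_edgeFinset]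
    have h1 : H.edgeFinset.card ≤ ((8 * k) ^ 2 - 0 ^ 2) * (k - 1) / (2 * k) + Nat.choose 0 2 := by
      simpa only [Fintype.card_fin, Nat.mul_mod_left] using h0
    have h2 : ((8 * k) ^ 2 - 0 ^ 2) * (k - 1) / (2 * k) + Nat.choose 0 2 = 32 * k * (k - 1) := by
      have : ((8 * k) ^ 2 - 0 ^ 2) * (k - 1) = (2 * k) * (32 * k * (k - 1)) := by
        rw [zero_pow (by norm_num), Nat.sub_zero]; ring
      rw [this, Nat.mul_div_cancel_left _ (by omega)]
      simp
    rw [h2] at h1
    have h3 : (⊤ : SimpleGraph (Fin (8 * k))).edgeFinset.card - F.card ≤ H.edgeFinset.card := by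
      refine (Finset.le_card_sdiff F _).trans (Finset.card_le_card ?_)
      intro f hf
      rw [Finset.mem_sdiff, SimpleGraph.mem_edgeFinset] at hf
      rw [SimpleGraph.mem_edgeFinset]
      induction f using Sym2.ind with
      | _ a b =>
        rw [SimpleGraph.mem_edgeSet] at hf ⊢
        rw [hH]
        exact ⟨hf.2, hf.1⟩
    rw [SimpleGraph.card_edgeFinset_top_eq_card_choose_two, Fintype.card_fin,
      Nat.choose_two_right] at h3
    have h4 : 8 * k * (8 * k - 1) / 2 = 4 * k * (8 * k - 1) := by
      rw [show 8 * k * (8 * k - 1) = 2 * (4 * k * (8 * k - 1)) by ring,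
        Nat.mul_div_cancel_left _ (by norm_num)]
    rw [h4] at h3
    have h6 : 4 * k * (8 * k - 1) ≤ 32 * k * (k - 1) + (16 * k + 1) := by omega
    obtain ⟨k', rfl⟩ : ∃ k', k = k' + 1 := ⟨k - 1, by omega⟩
    have h5 : 8 * (k' + 1) - 1 = 8 * k' + 7 := by omega
    rw [h5, Nat.add_sub_cancel] at h6
    nlinarith
  rw [SimpleGraph.CliqueFree] at hnot
  push Not at hnot
  obtain ⟨I, hI⟩ := hnot
  obtain ⟨J, hJ, hJk⟩ := Finset.exists_subset_card_eq (s := I) (n := k) (by rw [hI.card_eq]; omega)
  refine ⟨J, hJk, ?_⟩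
  intro a ha b hb hab
  have := hI.isClique (hJ ha) (hJ hb) hab
  rw [hH] at this
  exact this.1

/-! ### The construction -/

/-- the graph: a core clique on `{v < 9k+1}`, all vertices joined to `{v < k+1}` -/
def core (n k : ℕ) : SimpleGraph (Fin n) where
  Adj a b := a ≠ b ∧ ((a.val < 9 * k + 1 ∧ b.val < 9 * k + 1) ∨ a.val < k + 1 ∨ b.val < k + 1)
  symm := ⟨by
    rintro a b ⟨h1, h2⟩
    exact ⟨h1.symm, by tauto⟩⟩
  loopless := ⟨fun a h => h.1 rfl⟩

theorem core_adj {n k : ℕ} (a b : Fin n) : (core n k).Adj a b ↔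
    a ≠ b ∧ ((a.val < 9 * k + 1 ∧ b.val < 9 * k + 1) ∨ a.val < k + 1 ∨ b.val < k + 1) := Iff.rfl

theorem core_edges (n k : ℕ) : (core n k).edgeSet.ncard ≤ (k + 1) * n + (9 * k + 1) ^ 2 := by
  classical
  set A : Finset (Fin n) := Finset.univ.filter (fun a => a.val < 9 * k + 1)
  set T : Finset (Fin n) := Finset.univ.filter (fun a => a.val < k + 1)
  have hA : A.card ≤ 9 * k + 1 := by
    have : A.card ≤ (Finset.range (9 * k + 1)).card := by
      apply Finset.card_le_card_of_injOn (fun a => a.val)
      · intro a ha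
        simp only [A, Finset.coe_filter, Finset.mem_univ, true_and, Set.mem_ofPred_eq] at ha
        simpa using ha
      · intro a _ b _ h; exact Fin.ext h
    simpa using this
  have hT : T.card ≤ k + 1 := by
    have : T.card ≤ (Finset.range (k + 1)).card := by
      apply Finset.card_le_card_of_injOn (fun a => a.val)
      · intro a ha
        simp only [T, Finset.coe_filter, Finset.mem_univ, true_and, Set.mem_ofPred_eq] at ha
        simpa using ha
      · intro a _ b _ h; exact Fin.ext h
    simpa using this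
  have hsub : (core n k).edgeSet ⊆ (((T ×ˢ (Finset.univ : Finset (Fin n))).image
      (fun p => s(p.1, p.2)) ∪ (A ×ˢ A).image (fun p => s(p.1, p.2)) : Finset (Sym2 (Fin n))) :
        Set (Sym2 (Fin n))) := by
    intro f
    induction f using Sym2.ind with
    | _ a b =>
      intro h
      rw [SimpleGraph.mem_edgeSet, core_adj] at h
      simp only [Finset.coe_union, Finset.coe_image, Set.mem_union, Set.mem_image,
        Finset.mem_coe, Finset.mem_product, Finset.mem_univ, and_true, Prod.exists]
      rcases h.2 with h | h | h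
      · right; exact ⟨a, b, ⟨by simpa [A] using h.1, by simpa [A] using h.2⟩, rfl⟩
      · left; exact ⟨a, b, by simpa [T] using h, rfl⟩
      · left; exact ⟨b, a, by simpa [T] using h, Sym2.eq_swap⟩
  calc (core n k).edgeSet.ncard
      ≤ (((T ×ˢ (Finset.univ : Finset (Fin n))).image
      (fun p => s(p.1, p.2)) ∪ (A ×ˢ A).image (fun p => s(p.1, p.2)) : Finset (Sym2 (Fin n))) :
        Set (Sym2 (Fin n))).ncard := Set.ncard_le_ncard hsub (Finset.finite_toSet _)
    _ ≤ T.card * n + A.card * A.card := by
        rw [Set.ncard_coe_finset]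
        refine (Finset.card_union_le _ _).trans ?_
        refine add_le_add (Finset.card_image_le.trans ?_) (Finset.card_image_le.trans ?_)
        · rw [Finset.card_product]; simp
        · rw [Finset.card_product]
    _ ≤ (k + 1) * n + (9 * k + 1) ^ 2 := by
        rw [sq]
        exact add_le_add (Nat.mul_le_mul_right _ hT) (Nat.mul_le_mul hA hA)

/-- Rainbow criterion: with `χ` and `c` injective only old-new conflicts matter. -/
theorem rainbow_of {n m : ℕ} (χ : Sym2 (Fin n) → ℕ) (hχ : Function.Injective χ)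
    (e : Fin m → Sym2 (Fin n)) (he : Function.Injective e) (c : Fin m → ℕ)
    (hc : Function.Injective c) (f g : Sym2 (Fin n))
    (hfg : Function.extend e c χ f = Function.extend e c χ g)
    (h1 : f ∉ Set.range e → g ∈ Set.range e → χ f ≠ Function.extend e c χ g)
    (h2 : g ∉ Set.range e → f ∈ Set.range e → χ g ≠ Function.extend e c χ f) : f = g := by
  by_cases hf : f ∈ Set.range e
  · by_cases hg : g ∈ Set.range e
    · obtain ⟨i, rfl⟩ := hf
      obtain ⟨j, rfl⟩ := hg
      rw [he.extend_apply, he.extend_apply] at hfg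
      rw [hc hfg]
    · exfalso
      apply h2 hg hf
      rw [hfg, Function.extend_apply' _ _ _ (by simpa using hg)]
  · by_cases hg : g ∈ Set.range e
    · exfalso
      apply h1 hf hg
      rw [← hfg, Function.extend_apply' _ _ _ (by simpa using hf)]
    · rw [Function.extend_apply' _ _ _ (by simpa using hf),
        Function.extend_apply' _ _ _ (by simpa using hg)] at hfg
      exact hχ hfg

theorem index_lemma {α : Type*} (l₁ l₂ : List α) (h : List.Disjoint l₁ l₂)
    (i : Fin (l₁ ++ l₂).length) (hi : (l₁ ++ l₂).get i ∈ l₂) (f : α) (hf : f ∈ l₁) :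
    ∃ j ≤ i, (l₁ ++ l₂).get j = f := by
  obtain ⟨j, hj, rfl⟩ := List.getElem_of_mem hf
  have hil : l₁.length ≤ i.val := by
    by_contra hlt
    push Not at hlt
    have h1 : (l₁ ++ l₂).get i = l₁[i.val] := by
      rw [List.get_eq_getElem, List.getElem_append_left hlt]
    rw [h1] at hi
    exact h (List.getElem_mem _) hi
  have hlen : (l₁ ++ l₂).length = l₁.length + l₂.length := List.length_append
  refine ⟨⟨j, by omega⟩, ?_, ?_⟩
  · rw [Fin.le_def]; simp only; omega
  · rw [List.get_eq_getElem, List.getElem_append_left hj]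

theorem rainbowClique_of {n k m : ℕ} (χ : Sym2 (Fin n) → ℕ) (hχ : Function.Injective χ)
    (e : Fin m → Sym2 (Fin n)) (he : Function.Injective e)
    (hrange : Set.range e = (⊤ : SimpleGraph (Fin n)).edgeSet \ (core n k).edgeSet)
    (c : Fin m → ℕ) (hc : Function.Injective c) (i : Fin m) (S : Finset (Fin n))
    (hA : ∀ a ∈ S, ∀ b ∈ S, a ≠ b → (core n k).Adj a b ∨ ∃ j ≤ i, e j = s(a, b))
    (hB : ∀ a ∈ S, ∀ b ∈ S, ∀ c' ∈ S, ∀ d ∈ S, (core n k).Adj a b → c' ≠ d →
      ¬ (core n k).Adj c' d → χ s(a, b) ≠ Function.extend e c χ s(c', d)) :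
    RainbowClique ((core n k).edgeSet ∪ {f | ∃ j ≤ i, e j = f}) (Function.extend e c χ) S := by
  have hmem : ∀ a b : Fin n, s(a, b) ∈ Set.range e ↔ a ≠ b ∧ ¬ (core n k).Adj a b := by
    intro a b
    rw [hrange, Set.mem_sdiff, SimpleGraph.mem_edgeSet, SimpleGraph.mem_edgeSet,
      SimpleGraph.top_adj]
  refine ⟨?_, ?_⟩
  · intro a ha b hb hab
    rcases hA a ha b hb hab with h | h
    · left; exact h
    · right; exact h
  · intro a ha b hb c' hc' d hd hab hcd hφ
    apply rainbow_of χ hχ e he c hc _ _ hφ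
    · intro h1 h2
      rw [hmem] at h1 h2
      apply hB a ha b hb c' hc' d hd _ hcd h2.2
      by_contra h3
      exact h1 ⟨hab, h3⟩
    · intro h1 h2
      rw [hmem] at h1 h2
      apply hB c' hc' d hd a ha b hb _ hab h2.2
      by_contra h3
      exact h1 ⟨hcd, h3⟩

theorem saturated (n k : ℕ) (hk : 1 ≤ k) (hn : 9 * k + 1 ≤ n) :
    ∃ χ : Sym2 (Fin n) → ℕ, WeaklySaturated (k + 2) (core n k) χ := by
  classical
  let χ : Sym2 (Fin n) → ℕ := fun f => (Fintype.equivFin (Sym2 (Fin n)) f).val
  have hχ : Function.Injective χ := by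
    intro f g h
    exact (Fintype.equivFin (Sym2 (Fin n))).injective (Fin.ext h)
  refine ⟨χ, ?_⟩
  set M : Finset (Sym2 (Fin n)) := Finset.univ.filter
    (fun f => f ∈ (⊤ : SimpleGraph (Fin n)).edgeSet \ (core n k).edgeSet) with hM
  set M1 := M.filter (fun f => ∃ a ∈ f, a.val < 9 * k + 1) with hM1
  set M2 := M.filter (fun f => ¬ ∃ a ∈ f, a.val < 9 * k + 1) with hM2
  have hdisj : List.Disjoint M1.toList M2.toList := by
    intro f h1 h2
    rw [Finset.mem_toList] at h1 h2
    exact (Finset.mem_filter.mp h2).2 (Finset.mem_filter.mp h1).2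
  have hnodup : (M1.toList ++ M2.toList).Nodup :=
    List.nodup_append'.mpr ⟨M1.nodup_toList, M2.nodup_toList, hdisj⟩
  set L := M1.toList ++ M2.toList with hL
  have hmemL : ∀ f, f ∈ L ↔ f ∈ M := by
    intro f
    rw [hL, List.mem_append, Finset.mem_toList, Finset.mem_toList]
    constructor
    · rintro (h | h)
      · exact (Finset.mem_filter.mp h).1
      · exact (Finset.mem_filter.mp h).1
    · intro h
      by_cases hh : ∃ a ∈ f, a.val < 9 * k + 1
      · left; exact Finset.mem_filter.mpr ⟨h, hh⟩
      · right; exact Finset.mem_filter.mpr ⟨h, hh⟩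
  have hinj : Function.Injective L.get := List.nodup_iff_injective_get.mp hnodup
  have hrange : Set.range L.get = (⊤ : SimpleGraph (Fin n)).edgeSet \ (core n k).edgeSet := by
    ext f
    rw [Set.mem_range, ← List.mem_iff_get, hmemL, hM]
    simp
  refine ⟨L.length, L.get, hinj, hrange, ?_⟩
  intro c hc i
  set φ := Function.extend L.get c χ with hφ
  have hiM : L.get i ∈ M := (hmemL _).mp (List.get_mem _ _)
  by_cases hi1 : L.get i ∈ M1
  · -- first kind
    obtain ⟨u, hu, hu9⟩ := (Finset.mem_filter.mp hi1).2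
    obtain ⟨v, hv⟩ := hu
    have hmiss : s(u, v) ∈ (⊤ : SimpleGraph (Fin n)).edgeSet \ (core n k).edgeSet := by
      rw [← hv, ← hrange]; exact ⟨i, rfl⟩
    rw [Set.mem_sdiff, SimpleGraph.mem_edgeSet, SimpleGraph.mem_edgeSet, SimpleGraph.top_adj,
      core_adj] at hmiss
    obtain ⟨huv, hnadj⟩ := hmiss
    have huk : ¬ u.val < k + 1 := fun h => hnadj ⟨huv, Or.inr (Or.inl h)⟩
    have hvk : ¬ v.val < k + 1 := fun h => hnadj ⟨huv, Or.inr (Or.inr h)⟩
    have hv9 : ¬ v.val < 9 * k + 1 := fun h => hnadj ⟨huv, Or.inl ⟨hu9, h⟩⟩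
    set T : Finset (Fin n) := Finset.univ.filter (fun a => a.val < k + 1) with hT
    have hmT : ∀ a, a ∈ T ↔ a.val < k + 1 := by intro a; simp [hT]
    have hTcard : T.card = k + 1 := by
      have : T = (Finset.univ : Finset (Fin (k + 1))).image
          (fun x => (⟨x.val, by omega⟩ : Fin n)) := by
        ext a
        rw [hmT, Finset.mem_image]
        constructor
        · intro h; exact ⟨⟨a.val, h⟩, Finset.mem_univ _, rfl⟩
        · rintro ⟨x, _, rfl⟩; exact x.2
      rw [this, Finset.card_image_of_injective]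
      · simp
      · intro x y h
        simp only [Fin.mk.injEq] at h
        exact Fin.ext h
    obtain ⟨t, ht, htavoid⟩ : ∃ t ∈ T, ∀ f : Sym2 (Fin n), χ f = φ s(u, v) →
        (∃ a ∈ T, a ∈ f) → t ∈ f := by
      by_cases hex : ∃ f : Sym2 (Fin n), χ f = φ s(u, v) ∧ ∃ a ∈ T, a ∈ f
      · obtain ⟨f, hf, a, ha, haf⟩ := hex
        refine ⟨a, ha, ?_⟩
        intro g hg _
        have : g = f := hχ (by rw [hg, hf])
        rw [this]; exact haf
      · refine ⟨⟨0, by omega⟩, by rw [hmT]; simp, ?_⟩
        intro f hf h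
        exact absurd ⟨f, hf, h⟩ hex
    have huT : u ∉ T.erase t := by
      intro h; exact huk ((hmT u).mp (Finset.mem_of_mem_erase h))
    have hvT : v ∉ insert u (T.erase t) := by
      intro h
      rcases Finset.mem_insert.mp h with h | h
      · exact huv h.symm
      · exact hvk ((hmT v).mp (Finset.mem_of_mem_erase h))
    refine ⟨insert v (insert u (T.erase t)), ?_, ⟨u, by simp, v, by simp, huv, hv⟩, ?_⟩
    · rw [Finset.card_insert_of_notMem hvT, Finset.card_insert_of_notMem huT,
        Finset.card_erase_of_mem ht, hTcard]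
      omega
    · have hcases : ∀ a ∈ insert v (insert u (T.erase t)), a = v ∨ a = u ∨ (a ∈ T ∧ a ≠ t) := by
        intro a ha
        rcases Finset.mem_insert.mp ha with h | h
        · left; exact h
        · rcases Finset.mem_insert.mp h with h | h
          · right; left; exact h
          · right; right; exact ⟨Finset.mem_of_mem_erase h, Finset.ne_of_mem_erase h⟩
      have hkey : ∀ a ∈ insert v (insert u (T.erase t)), ∀ b ∈ insert v (insert u (T.erase t)),
          a ≠ b → (a ∈ T ∨ b ∈ T) ∨ s(a, b) = s(u, v) := by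
        intro a ha b hb hab
        rcases hcases a ha with rfl | rfl | h
        · rcases hcases b hb with rfl | rfl | h
          · exact absurd rfl hab
          · right; exact Sym2.eq_swap
          · left; right; exact h.1
        · rcases hcases b hb with rfl | rfl | h
          · right; rfl
          · exact absurd rfl hab
          · left; right; exact h.1
        · left; left; exact h.1
      apply rainbowClique_of χ hχ L.get hinj hrange c hc i
      · intro a ha b hb hab
        rcases hkey a ha b hb hab with (h | h) | h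
        · left; rw [core_adj]; exact ⟨hab, Or.inr (Or.inl ((hmT a).mp h))⟩
        · left; rw [core_adj]; exact ⟨hab, Or.inr (Or.inr ((hmT b).mp h))⟩
        · right; exact ⟨i, le_refl _, by rw [h]; exact hv⟩
      · intro a ha b hb c' hc' d hd hab hcd hncd hcontra
        have hcd' : s(c', d) = s(u, v) := by
          rcases hkey c' hc' d hd hcd with (h | h) | h
          · exact absurd ((core_adj c' d).mpr ⟨hcd, Or.inr (Or.inl ((hmT _).mp h))⟩) hncd
          · exact absurd ((core_adj c' d).mpr ⟨hcd, Or.inr (Or.inr ((hmT _).mp h))⟩) hncd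
          · exact h
        rw [hcd'] at hcontra
        have hab' : a ≠ b := hab.1
        have hT' : (a ∈ T ∨ b ∈ T) := by
          rcases hkey a ha b hb hab' with h | h
          · exact h
          · exfalso
            apply hnadj
            rw [← core_adj, ← SimpleGraph.mem_edgeSet, ← h]
            exact hab
        have htf : t ∈ s(a, b) := by
          apply htavoid _ hcontra
          rcases hT' with h | h
          · exact ⟨a, h, Sym2.mem_mk_left a b⟩
          · exact ⟨b, h, Sym2.mem_mk_right a b⟩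
        have htne : ∀ x ∈ insert v (insert u (T.erase t)), t ≠ x := by
          intro x hx hxt
          rcases hcases x hx with h | h | h
          · rw [← hxt] at h; rw [h] at ht; exact hvk ((hmT _).mp ht)
          · rw [← hxt] at h; rw [h] at ht; exact huk ((hmT _).mp ht)
          · exact h.2 hxt.symm
        rcases Sym2.mem_iff.mp htf with h | h
        · exact htne a ha h
        · exact htne b hb h
  · -- second kind
    have hi2 : L.get i ∈ M2 := Finset.mem_filter.mpr ⟨hiM, fun h => hi1 (Finset.mem_filter.mpr ⟨hiM, h⟩)⟩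
    obtain ⟨v, w, hvw⟩ : ∃ v w, L.get i = s(v, w) := by
      induction L.get i using Sym2.ind with
      | _ a b => exact ⟨a, b, rfl⟩
    have hv9 : ¬ v.val < 9 * k + 1 := by
      intro h; exact (Finset.mem_filter.mp hi2).2 ⟨v, by rw [hvw]; exact Sym2.mem_mk_left v w, h⟩
    have hw9 : ¬ w.val < 9 * k + 1 := by
      intro h; exact (Finset.mem_filter.mp hi2).2 ⟨w, by rw [hvw]; exact Sym2.mem_mk_right v w, h⟩
    have hne : v ≠ w := by
      have hmiss : s(v, w) ∈ (⊤ : SimpleGraph (Fin n)).edgeSet \ (core n k).edgeSet := by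
        rw [← hvw, ← hrange]; exact ⟨i, rfl⟩
      exact hmiss.1
    let ι : Fin (8 * k) → Fin n := fun x => ⟨k + 1 + x.val, by have := x.2; omega⟩
    have hι : Function.Injective ι := by
      intro x y h
      have : k + 1 + x.val = k + 1 + y.val := congrArg Fin.val h
      exact Fin.ext (by omega)
    have hιval : ∀ x, (ι x).val < 9 * k + 1 := by
      intro x; show k + 1 + x.val < 9 * k + 1; have := x.2; omega
    have hιk : ∀ x, ¬ (ι x).val < k + 1 := by
      intro x; show ¬ (k + 1 + x.val < k + 1); omega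
    -- conflicts
    set B : Finset ℕ := ((Finset.univ : Finset (Fin (8 * k))).image (fun x => φ s(v, ι x)) ∪
      (Finset.univ : Finset (Fin (8 * k))).image (fun x => φ s(w, ι x))) ∪ {φ s(v, w)} with hB
    have hBcard : B.card ≤ 16 * k + 1 := by
      refine (Finset.card_union_le _ _).trans ?_
      refine (add_le_add (Finset.card_union_le _ _) (le_refl _)).trans ?_
      have h1 := Finset.card_image_le (s := (Finset.univ : Finset (Fin (8 * k))))
        (f := fun x => φ s(v, ι x))
      have h2 := Finset.card_image_le (s := (Finset.univ : Finset (Fin (8 * k))))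
        (f := fun x => φ s(w, ι x))
      simp only [Finset.card_univ, Fintype.card_fin] at h1 h2
      rw [Finset.card_singleton]
      omega
    set F : Finset (Sym2 (Fin (8 * k))) := Finset.univ.filter (fun p => χ (p.map ι) ∈ B) with hF
    have hFcard : F.card ≤ 16 * k + 1 := by
      refine le_trans ?_ hBcard
      apply Finset.card_le_card_of_injOn (fun p => χ (p.map ι))
      · intro p hp
        simp only [hF, Finset.coe_filter, Finset.mem_univ, true_and] at hp
        exact hp
      · intro p _ q _ h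
        exact Sym2.map.injective hι (hχ h)
    obtain ⟨I, hIcard, hI⟩ := exists_indep k hk F hFcard
    have hwI : w ∉ I.image ι := by
      intro h
      obtain ⟨x, _, hx⟩ := Finset.mem_image.mp h
      rw [← hx] at hw9; exact hw9 (hιval x)
    have hvI : v ∉ insert w (I.image ι) := by
      intro h
      rcases Finset.mem_insert.mp h with h | h
      · exact hne h
      · obtain ⟨x, _, hx⟩ := Finset.mem_image.mp h
        rw [← hx] at hv9; exact hv9 (hιval x)
    refine ⟨insert v (insert w (I.image ι)), ?_, ⟨v, by simp, w, by simp, hne, hvw⟩, ?_⟩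
    · rw [Finset.card_insert_of_notMem hvI, Finset.card_insert_of_notMem hwI,
        Finset.card_image_of_injective _ hι, hIcard]
    · have hcases : ∀ a ∈ insert v (insert w (I.image ι)), a = v ∨ a = w ∨ ∃ x ∈ I, ι x = a := by
        intro a ha
        rcases Finset.mem_insert.mp ha with h | h
        · left; exact h
        · rcases Finset.mem_insert.mp h with h | h
          · right; left; exact h
          · right; right
            obtain ⟨x, hx, hxa⟩ := Finset.mem_image.mp h
            exact ⟨x, hx, hxa⟩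
      -- missing edges to the core
      have hmissing : ∀ y : Fin n, ¬ y.val < 9 * k + 1 → ∀ x, ¬ (core n k).Adj y (ι x) := by
        intro y hy x h
        rw [core_adj] at h
        rcases h.2 with h | h | h
        · exact hy h.1
        · exact hy (by omega)
        · exact hιk x h
      have hindex : ∀ y : Fin n, ¬ y.val < 9 * k + 1 → ∀ x, ∃ j ≤ i, L.get j = s(y, ι x) := by
        intro y hy x
        apply index_lemma _ _ hdisj i (by rw [Finset.mem_toList]; exact hi2)
        rw [Finset.mem_toList, hM1, Finset.mem_filter, hM, Finset.mem_filter]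
        refine ⟨⟨Finset.mem_univ _, ?_, ?_⟩, ι x, Sym2.mem_mk_right _ _, hιval x⟩
        · rw [SimpleGraph.mem_edgeSet, SimpleGraph.top_adj]
          intro h; rw [h] at hy; exact hy (hιval x)
        · rw [SimpleGraph.mem_edgeSet]; exact hmissing y hy x
      -- a pair in `S` is either inside the core or a new edge with colour in `B`
      have hkey : ∀ a ∈ insert v (insert w (I.image ι)), ∀ b ∈ insert v (insert w (I.image ι)),
          a ≠ b → (∃ x ∈ I, ∃ y ∈ I, ι x = a ∧ ι y = b) ∨
            ((∃ j ≤ i, L.get j = s(a, b)) ∧ ¬ (core n k).Adj a b ∧ φ s(a, b) ∈ B) := by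
        intro a ha b hb hab
        rcases hcases a ha with rfl | rfl | ⟨x, hx, rfl⟩
        · rcases hcases b hb with rfl | rfl | ⟨y, hy, rfl⟩
          · exact absurd rfl hab
          · right
            refine ⟨⟨i, le_refl _, hvw⟩, ?_, ?_⟩
            · rw [core_adj]; rintro ⟨-, h | h | h⟩ <;> omega
            · simp [hB]
          · right
            exact ⟨hindex _ hv9 y, hmissing _ hv9 y, by simp [hB]⟩
        · rcases hcases b hb with rfl | rfl | ⟨y, hy, rfl⟩
          · right
            refine ⟨⟨i, le_refl _, by rw [hvw, Sym2.eq_swap]⟩, ?_, ?_⟩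
            · rw [core_adj]; rintro ⟨-, h | h | h⟩ <;> omega
            · rw [Sym2.eq_swap]; simp [hB]
          · exact absurd rfl hab
          · right
            exact ⟨hindex _ hw9 y, hmissing _ hw9 y, by simp [hB]⟩
        · rcases hcases b hb with rfl | rfl | ⟨y, hy, rfl⟩
          · right
            refine ⟨by rw [Sym2.eq_swap]; exact hindex _ hv9 x, fun h => hmissing _ hv9 x h.symm, ?_⟩
            rw [Sym2.eq_swap]; simp [hB]
          · right
            refine ⟨by rw [Sym2.eq_swap]; exact hindex _ hw9 x, fun h => hmissing _ hw9 x h.symm, ?_⟩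
            rw [Sym2.eq_swap]; simp [hB]
          · left; exact ⟨x, hx, y, hy, rfl, rfl⟩
      apply rainbowClique_of χ hχ L.get hinj hrange c hc i
      · intro a ha b hb hab
        rcases hkey a ha b hb hab with ⟨x, _, y, _, rfl, rfl⟩ | h
        · left; rw [core_adj]; exact ⟨hab, Or.inl ⟨hιval x, hιval y⟩⟩
        · right; exact h.1
      · intro a ha b hb c' hc' d hd hab hcd hncd hcontra
        rcases hkey a ha b hb hab.1 with ⟨x, hx, y, hy, rfl, rfl⟩ | h
        · rcases hkey c' hc' d hd hcd with ⟨x', _, y', _, rfl, rfl⟩ | h'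
          · exact hncd ((core_adj _ _).mpr ⟨hcd, Or.inl ⟨hιval x', hιval y'⟩⟩)
          · apply hI x hx y hy (fun h => hab.1 (by rw [h]))
            rw [hF, Finset.mem_filter]
            refine ⟨Finset.mem_univ _, ?_⟩
            rw [Sym2.map_mk]
            show χ s(ι x, ι y) ∈ B
            rw [hcontra]
            exact h'.2.2
        · exact h.2.1 hab

/-- **MP_d10f6f_co, Q1 (proved, in the stronger form `rwsat(n, K_r) ≤ (r-1) n + C`).** -/
theorem result (r : ℕ) (hr : 3 ≤ r) :
    ∃ C n₀ : ℕ, ∀ n, n₀ ≤ n → rwsat n r ≤ (r - 1) * n + C ∧ rwsat n r ≤ r * n + C := by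
  obtain ⟨k, rfl⟩ : ∃ k, r = k + 2 := ⟨r - 2, by omega⟩
  refine ⟨(9 * k + 1) ^ 2, 9 * k + 1, ?_⟩
  intro n hn
  obtain ⟨χ, hχ⟩ := saturated n k (by omega) hn
  have h1 : rwsat n (k + 2) ≤ (core n k).edgeSet.ncard := Nat.sInf_le ⟨core n k, χ, hχ, rfl⟩
  have h2 : rwsat n (k + 2) ≤ (k + 2 - 1) * n + (9 * k + 1) ^ 2 := by
    refine h1.trans ((core_edges n k).trans ?_)
    rw [show k + 2 - 1 = k + 1 by omega]
  refine ⟨h2, h2.trans ?_⟩
  have : (k + 2 - 1) * n ≤ (k + 2) * n := Nat.mul_le_mul_right _ (by omega)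
  omega

end Pool.Agent.Results.MP_d10f6f_co.WeakRainbowSaturationLinear
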